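import Mathlib

/-!
# MP_ac5134: the Kakeya inequality in tube form and the maximal inequality with deleted boxes

Work in `ℝ^n = ℝ^d × ℝ`, `n = d + 1`, with its Euclidean norm (`Space d`), and let `P` be the
paraboloid `{(ω, |ω|²)}`, `|ω| ≤ 1`.  The box dual to the cap at `ω` is `box N (nor ω) f 0`: its long
side `N²` is in the direction of the unit normal `nor ω = (-2ω, 1)/√(1+4|ω|²)` and its other sides `N`
are in the directions of an arbitrary orthonormal frame `f` of the orthogonal complement.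

The inequality of Q1 (for the full families of the `≈ N^(n-1)` boxes, all translates and all `p`) is
equivalent to a much stronger one for a part of the boxes, and to a much weaker one:

* (strong) for all translates, all subfamilies `J`, `1 ≤ p < ∞` and `η > 0` there is `I ⊆ J` with
  `|J \ I| ≤ η |J|` such that for ALL weights `c ≥ 0` on `I`
  `‖∑_{i ∈ I} c_i T_i‖_p ≤ C N^ε (∑_{i ∈ I} c_i^p / (η |J|))^(1/p) ‖∑ T_{i,0}‖_p`
  (for `J` = all boxes and `p = n/(n-1)` this is the dual form of the maximal inequality, on `I`);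
* (weak) for all translates, all subfamilies `J` and `1 ≤ p < ∞` there is `I ⊆ J` with
  `|I| ≥ |J| / (C N^ε)` and `‖∑_{i ∈ I} T_i‖_p ≤ C N^ε ‖∑ T_{i,0}‖_p`.
-/

set_option autoImplicit false

open MeasureTheory Set Filter Topology ENNReal NNReal Metric

namespace Pool.Agent.Results.MP_ac5134_an.DeletedBoxes

/-- Euclidean space `ℝ^d`. -/
abbrev Vec (d : ℕ) : Type := EuclideanSpace ℝ (Fin d)

/-- Euclidean space `ℝ^{d+1}`, written as `ℝ^d × ℝ` with the Euclidean norm. -/
abbrev Space (d : ℕ) : Type := WithLp 2 (Vec d × ℝ)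

/-- The unit normal `(-2ω, 1)/√(1+4|ω|²)` of the paraboloid at `(ω, |ω|²)`. -/
noncomputable def nor {d : ℕ} (ω : Vec d) : Space d :=
  (√(1 + ‖(-(2 : ℝ)) • ω‖ ^ 2))⁻¹ • WithLp.toLp 2 ((-(2 : ℝ)) • ω, (1 : ℝ))

/-- The box with centre `a`, side `N²` in the direction `u` and sides `N` in the directions `f j`. -/
def box {d : ℕ} (N : ℝ) (u : Space d) (f : Fin d → Space d) (a : Space d) : Set (Space d) :=
  {y | |inner ℝ u (y - a)| ≤ N ^ 2 / 2 ∧ ∀ j, |inner ℝ (f j) (y - a)| ≤ N / 2}

/-- The caps have centres `ω i` in the closed unit ball, `σ/N`-separated and an `S/N`-net of the ball,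
and `f i` is an orthonormal frame of the orthogonal complement of the normal at `ω i`. -/
def FullCaps {d : ℕ} {ι : Type} (σ S N : ℝ) (ω : ι → Vec d) (f : ι → Fin d → Space d) : Prop :=
  (∀ i, ‖ω i‖ ≤ 1) ∧ (∀ i j, i ≠ j → σ / N ≤ ‖ω i - ω j‖) ∧
    (∀ w : Vec d, ‖w‖ ≤ 1 → ∃ i, ‖w - ω i‖ ≤ S / N) ∧
    ∀ i, Orthonormal ℝ (Fin.cons (nor (ω i)) (f i) : Fin (d + 1) → Space d)

/-- The sum over `i ∈ J` of `c i` times the indicator of the box with centre `a i`. -/
noncomputable def boxSum {d : ℕ} {ι : Type} (N : ℝ) (ω : ι → Vec d) (f : ι → Fin d → Space d)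
    (a : ι → Space d) (J : Finset ι) (c : ι → ℝ) (y : Space d) : ℝ :=
  ∑ i ∈ J, c i * (box N (nor (ω i)) (f i) (a i)).indicator (fun _ => (1 : ℝ)) y

/-- The inequality of Q1 in the dimension `d + 1`: all full families, all translates, all `p`. -/
def TubeForm (d : ℕ) : Prop :=
  ∀ ε σ S : ℝ, 0 < ε → 0 < σ → σ ≤ 1 → ∃ C : ℝ, 0 < C ∧ ∀ N : ℝ, 1 ≤ N →
    ∀ (ι : Type) [Fintype ι] (ω : ι → Vec d) (f : ι → Fin d → Space d), FullCaps σ S N ω f →
      ∀ (a : ι → Space d) (p : ℝ≥0∞), 1 ≤ p →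
        eLpNorm (boxSum N ω f a Finset.univ 1) p volume ≤
          ENNReal.ofReal (C * N ^ ε) * eLpNorm (boxSum N ω f 0 Finset.univ 1) p volume

/-- The strong inequality, with arbitrary weights, for all but few boxes. -/
def StrongOffFew (d : ℕ) : Prop :=
  ∀ ε σ S : ℝ, 0 < ε → 0 < σ → σ ≤ 1 → ∃ C : ℝ, 0 < C ∧ ∀ N : ℝ, 1 ≤ N →
    ∀ (ι : Type) [Fintype ι] (ω : ι → Vec d) (f : ι → Fin d → Space d), FullCaps σ S N ω f →
      ∀ (a : ι → Space d) (p : ℝ), 1 ≤ p → ∀ (J : Finset ι) (η : ℝ), 0 < η →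
        ∃ I : Finset ι, I ⊆ J ∧ (J.card : ℝ) ≤ I.card + η * J.card ∧
          ∀ c : ι → ℝ, (∀ i, 0 ≤ c i) →
            eLpNorm (boxSum N ω f a I c) (ENNReal.ofReal p) volume ≤
              ENNReal.ofReal (C * N ^ ε * ((∑ i ∈ I, c i ^ p) / (η * J.card)) ^ (1 / p)) *
                eLpNorm (boxSum N ω f 0 Finset.univ 1) (ENNReal.ofReal p) volume

/-- The inequality of Q1 for some part, of proportion `N^(-ε)`, of every subfamily. -/
def SomePart (d : ℕ) : Prop :=
  ∀ ε σ S : ℝ, 0 < ε → 0 < σ → σ ≤ 1 → ∃ C : ℝ, 0 < C ∧ ∀ N : ℝ, 1 ≤ N →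
    ∀ (ι : Type) [Fintype ι] (ω : ι → Vec d) (f : ι → Fin d → Space d), FullCaps σ S N ω f →
      ∀ (a : ι → Space d) (p : ℝ), 1 ≤ p → ∀ J : Finset ι,
        ∃ I : Finset ι, I ⊆ J ∧ (J.card : ℝ) ≤ C * N ^ ε * I.card ∧
          eLpNorm (boxSum N ω f a I 1) (ENNReal.ofReal p) volume ≤
            ENNReal.ofReal (C * N ^ ε) *
              eLpNorm (boxSum N ω f 0 Finset.univ 1) (ENNReal.ofReal p) volume

variable {d : ℕ}

theorem box_closed (N : ℝ) (e : Space d) (f : Fin d → Space d) (a : Space d) :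
    IsClosed (box N e f a) := by
  have h : box N e f a = {y | |inner ℝ e (y - a)| ≤ N ^ 2 / 2} ∩
      ⋂ j, {y | |inner ℝ (f j) (y - a)| ≤ N / 2} := by
    ext y
    simp [box]
  rw [h]
  refine IsClosed.inter (isClosed_le (by fun_prop) continuous_const) ?_
  exact isClosed_iInter fun j => isClosed_le (by fun_prop) continuous_const

theorem ball_sub_box {N : ℝ} (hN : 1 ≤ N) {e : Space d} {f : Fin d → Space d}
    (h : Orthonormal ℝ (Fin.cons e f : Fin (d + 1) → Space d)) :
    ball (0 : Space d) (N / 2) ⊆ box N e f 0 := by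
  intro y hy
  rw [mem_ball, dist_zero_right] at hy
  have he : ‖e‖ = 1 := by simpa using h.1 0
  have hf : ∀ j, ‖f j‖ = 1 := fun j => by simpa using h.1 j.succ
  constructor
  · rw [sub_zero]
    refine (abs_real_inner_le_norm _ _).trans ?_
    rw [he, one_mul]
    nlinarith
  · intro j
    rw [sub_zero]
    refine (abs_real_inner_le_norm _ _).trans ?_
    rw [hf, one_mul]
    exact hy.le

/-- The cell of a point. -/
noncomputable def cell (ρ : ℝ) (v : Vec d) : Fin d → ℤ := fun a => ⌊v a / ρ⌋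

theorem cell_close {ρ : ℝ} (hρ : 0 < ρ) {v w : Vec d} (h : cell ρ v = cell ρ w) :
    ‖v - w‖ ≤ d * ρ := by
  have h1 : ∀ a, |v a - w a| ≤ ρ := by
    intro a
    have h2 : ⌊v a / ρ⌋ = ⌊w a / ρ⌋ := congr_fun h a
    have h3 : |v a / ρ - w a / ρ| < 1 := Int.abs_sub_lt_one_of_floor_eq_floor h2
    rw [← _root_.sub_div, abs_div, abs_of_pos hρ, div_lt_one hρ] at h3
    exact h3.le
  have hd0 : (0 : ℝ) ≤ d := Nat.cast_nonneg d
  apply le_of_sq_le_sq _ (by positivity)
  rw [EuclideanSpace.real_norm_sq_eq]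
  calc ∑ a, ((v - w) a) ^ 2 ≤ ∑ _a : Fin d, ρ ^ 2 := by
        refine Finset.sum_le_sum fun a _ => ?_
        have := h1 a
        rw [← sq_abs]
        exact pow_le_pow_left₀ (abs_nonneg _) this 2
    _ = d * ρ ^ 2 := by simp
    _ ≤ (d * ρ) ^ 2 := by
        rcases Nat.eq_zero_or_pos d with h0 | h0
        · subst h0; simp
        · have : (1 : ℝ) ≤ d := by exact_mod_cast h0
          nlinarith [mul_nonneg (sub_nonneg.2 this) (mul_nonneg hd0 (sq_nonneg ρ))]

theorem cell_card {ρ : ℝ} (hρ : 0 < ρ) (hρ1 : ρ ≤ 1) {ι : Type} [Fintype ι] (v : ι → Vec d)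
    (hv : ∀ i, ‖v i‖ ≤ 1) :
    ((Finset.univ.image (fun i => cell ρ (v i))).card : ℝ) ≤ (5 / ρ) ^ d := by
  classical
  set m : ℤ := ⌈1 / ρ⌉ with hm
  have hm0 : 0 ≤ m := Int.ceil_nonneg (by positivity)
  have hsub : Finset.univ.image (fun i => cell ρ (v i)) ⊆
      Fintype.piFinset (fun _ : Fin d => Finset.Icc (-m) m) := by
    intro c hc
    obtain ⟨i, _, rfl⟩ := Finset.mem_image.1 hc
    rw [Fintype.mem_piFinset]
    intro a
    rw [Finset.mem_Icc]
    have h1 : |v i a| ≤ 1 := by
      have := PiLp.norm_apply_le (v i) a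
      rw [Real.norm_eq_abs] at this
      exact this.trans (hv i)
    have h2 := abs_le.1 h1
    have h3 : 1 / ρ ≤ m := Int.le_ceil _
    constructor
    · apply Int.le_floor.2
      push_cast
      have : -(1 / ρ) ≤ v i a / ρ := by
        rw [← neg_div]
        exact div_le_div_of_nonneg_right h2.1 hρ.le
      linarith
    · have h4 : (⌊v i a / ρ⌋ : ℝ) ≤ v i a / ρ := Int.floor_le _
      have h5 : v i a / ρ ≤ 1 / ρ := div_le_div_of_nonneg_right h2.2 hρ.le
      have h6 : (⌊v i a / ρ⌋ : ℝ) ≤ m := by linarith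
      exact_mod_cast h6
  have hcard := Finset.card_le_card hsub
  rw [Fintype.card_piFinset] at hcard
  simp only [Finset.prod_const, Finset.card_univ, Fintype.card_fin, Int.card_Icc] at hcard
  have h7 : ((m + 1 - -m).toNat : ℝ) ≤ 5 / ρ := by
    have e : (((m + 1 - -m).toNat : ℤ) : ℝ) = (m + 1 - -m : ℤ) := by
      rw [Int.toNat_of_nonneg (by omega)]
    rw [Int.cast_natCast] at e
    rw [e]
    push_cast
    have h8 : (m : ℝ) < 1 / ρ + 1 := Int.ceil_lt_add_one _
    have h9 : 1 ≤ 1 / ρ := by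
      rw [le_div_iff₀ hρ]; linarith
    have h10 : 5 / ρ = 5 * (1 / ρ) := by ring
    rw [h10]
    linarith
  calc ((Finset.univ.image (fun i => cell ρ (v i))).card : ℝ)
      ≤ (((m + 1 - -m).toNat ^ d : ℕ) : ℝ) := by
        exact_mod_cast hcard
    _ = ((m + 1 - -m).toNat : ℝ) ^ d := by push_cast; ring
    _ ≤ (5 / ρ) ^ d := pow_le_pow_left₀ (Nat.cast_nonneg _) h7 d

theorem card_caps {ι : Type} [Fintype ι] {σ N : ℝ} (hσ : 0 < σ) (hσ1 : σ ≤ 1) (hN : 1 ≤ N)
    (ω : ι → Vec d) (h1 : ∀ i, ‖ω i‖ ≤ 1) (h2 : ∀ i j, i ≠ j → σ / N ≤ ‖ω i - ω j‖) :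
    (Fintype.card ι : ℝ) ≤ (10 * (d + 1) / σ * N) ^ d := by
  classical
  have hd0 : (0 : ℝ) ≤ d := Nat.cast_nonneg d
  have hN0 : 0 < N := by linarith
  set ρ : ℝ := σ / (2 * (d + 1) * N) with hρ
  have hρ0 : 0 < ρ := by positivity
  have hρ1 : ρ ≤ 1 := by
    rw [hρ, div_le_one (by positivity)]
    nlinarith
  have hinj : Function.Injective fun i => cell ρ (ω i) := by
    intro i j hij
    by_contra hne
    have h3 := cell_close hρ0 hij
    have h4 := h2 i j hne
    have h5 : d * ρ < σ / N := by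
      rw [hρ, ← mul_div_assoc, div_lt_div_iff₀ (by positivity) hN0]
      have : 0 < σ * N := by positivity
      nlinarith
    linarith
  have h3 := cell_card hρ0 hρ1 ω h1
  rw [Finset.card_image_of_injective _ hinj, Finset.card_univ] at h3
  refine h3.trans (le_of_eq ?_)
  congr 1
  rw [hρ]
  field_simp
  norm_num

theorem ind_nonneg {ι : Type} (N : ℝ) (ω : ι → Vec d) (f : ι → Fin d → Space d) (a : ι → Space d)
    (i : ι) (y : Space d) :
    0 ≤ (box N (nor (ω i)) (f i) (a i)).indicator (fun _ => (1 : ℝ)) y :=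
  Set.indicator_nonneg (fun _ _ => zero_le_one) _

theorem boxSum_nonneg {ι : Type} (N : ℝ) (ω : ι → Vec d) (f : ι → Fin d → Space d)
    (a : ι → Space d) (J : Finset ι) (c : ι → ℝ) (hc : ∀ i, 0 ≤ c i) (y : Space d) :
    0 ≤ boxSum N ω f a J c y :=
  Finset.sum_nonneg fun i _ => mul_nonneg (hc i) (ind_nonneg N ω f a i y)

theorem ind_meas {ι : Type} (N : ℝ) (ω : ι → Vec d) (f : ι → Fin d → Space d) (a : ι → Space d)
    (i : ι) : Measurable ((box N (nor (ω i)) (f i) (a i)).indicator (fun _ => (1 : ℝ))) :=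
  measurable_const.indicator (box_closed _ _ _ _).measurableSet

theorem boxSum_meas {ι : Type} (N : ℝ) (ω : ι → Vec d) (f : ι → Fin d → Space d)
    (a : ι → Space d) (J : Finset ι) (c : ι → ℝ) : Measurable (boxSum N ω f a J c) := by
  unfold boxSum
  exact Finset.measurable_sum _ fun i _ => (ind_meas N ω f a i).const_mul (c i)

/-- convexity -/
theorem jensen {ι : Type} (I : Finset ι) (F c : ι → ℝ) (hF : ∀ i, 0 ≤ F i) (hc : ∀ i, 0 ≤ c i)
    {p : ℝ} (hp : 1 ≤ p) :
    (∑ i ∈ I, c i * F i) ^ p ≤ (∑ i ∈ I, F i) ^ (p - 1) * ∑ i ∈ I, F i * c i ^ p := by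
  set s : ℝ := ∑ i ∈ I, F i with hs
  have hs0 : 0 ≤ s := Finset.sum_nonneg fun i _ => hF i
  have hp0 : 0 < p := by linarith
  rcases hs0.eq_or_lt with h | h
  · have h0 : ∀ i ∈ I, F i = 0 := by
      intro i hi
      exact (Finset.sum_eq_zero_iff_of_nonneg fun j _ => hF j).1 h.symm i hi
    have h1 : ∑ i ∈ I, c i * F i = 0 := Finset.sum_eq_zero fun i hi => by rw [h0 i hi, mul_zero]
    have h2 : ∑ i ∈ I, F i * c i ^ p = 0 := Finset.sum_eq_zero fun i hi => by
      rw [h0 i hi, zero_mul]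
    rw [h1, h2, mul_zero, Real.zero_rpow hp0.ne']
  · have h1 := Real.rpow_arith_mean_le_arith_mean_rpow I (fun i => F i / s) c
      (fun i _ => div_nonneg (hF i) hs0) (by rw [← Finset.sum_div, div_self h.ne'])
      (fun i _ => hc i) hp
    have h2 : ∑ i ∈ I, c i * F i = s * ∑ i ∈ I, F i / s * c i := by
      rw [Finset.mul_sum]
      refine Finset.sum_congr rfl fun i _ => ?_
      field_simp
    have h3 : s ^ (p - 1) * ∑ i ∈ I, F i * c i ^ p = s ^ p * ∑ i ∈ I, F i / s * c i ^ p := by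
      rw [Real.rpow_sub_one h.ne', Finset.mul_sum, Finset.mul_sum]
      refine Finset.sum_congr rfl fun i _ => ?_
      field_simp
    rw [h2, h3, Real.mul_rpow hs0 (Finset.sum_nonneg fun i _ =>
      mul_nonneg (div_nonneg (hF i) hs0) (hc i))]
    gcongr

/-- **Explicit weights**: all but few boxes. -/
theorem off_few {ι : Type} (N : ℝ) (ω : ι → Vec d) (f : ι → Fin d → Space d)
    (a : ι → Space d) {p : ℝ} (hp : 1 ≤ p) (J : Finset ι) (B : ℝ≥0∞) (hB : B ≠ ∞)
    (hJ : ∫⁻ y, ENNReal.ofReal (boxSum N ω f a J 1 y) ^ p ≤ B) (η : ℝ) (hη : 0 < η) :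
    ∃ I : Finset ι, I ⊆ J ∧ (J.card : ℝ) ≤ I.card + η * J.card ∧
      ∀ c : ι → ℝ, (∀ i, 0 ≤ c i) → ∫⁻ y, ENNReal.ofReal (boxSum N ω f a I c y) ^ p ≤
        ENNReal.ofReal ((∑ i ∈ I, c i ^ p) / (η * J.card)) * B := by
  classical
  have hp0 : 0 < p := by linarith
  rcases J.eq_empty_or_nonempty with rfl | hne
  · refine ⟨∅, subset_rfl, by simp, fun c _ => ?_⟩
    have : ∀ y, boxSum N ω f a ∅ c y = 0 := fun y => by simp [boxSum]
    simp [this, ENNReal.zero_rpow_of_pos hp0]
  have hJ0 : (0 : ℝ) < J.card := by exact_mod_cast hne.card_pos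
  set F : ι → Space d → ℝ := fun i y => (box N (nor (ω i)) (f i) (a i)).indicator (fun _ => (1 : ℝ)) y
    with hF
  have hF0 : ∀ i y, 0 ≤ F i y := fun i y => ind_nonneg N ω f a i y
  set s : Space d → ℝ := fun y => ∑ i ∈ J, F i y with hs
  have hs0 : ∀ y, 0 ≤ s y := fun y => Finset.sum_nonneg fun i _ => hF0 i y
  have hFm : ∀ i, Measurable (F i) := fun i => ind_meas N ω f a i
  have hsm : Measurable s := Finset.measurable_sum _ fun i _ => hFm i
  have hsJ : ∀ y, boxSum N ω f a J 1 y = s y := fun y => by simp [boxSum, hs, hF]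
  set κ : ι → ℝ≥0∞ := fun i => ∫⁻ y, ENNReal.ofReal (s y ^ (p - 1) * F i y) with hκ
  have hκm : ∀ i, Measurable fun y => ENNReal.ofReal (s y ^ (p - 1) * F i y) := fun i =>
    ((hsm.pow_const _).mul (hFm i)).ennreal_ofReal
  have hκsum : ∑ i ∈ J, κ i ≤ B := by
    refine le_trans (le_of_eq ?_) hJ
    rw [hκ, ← lintegral_finsetSum _ fun i _ => hκm i]
    refine lintegral_congr fun y => ?_
    rw [hsJ, ENNReal.ofReal_rpow_of_nonneg (hs0 y) hp0.le,
      ← ENNReal.ofReal_sum_of_nonneg fun i _ => mul_nonneg (Real.rpow_nonneg (hs0 y) _) (hF0 i y),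
      ← Finset.mul_sum]
    congr 1
    rcases (hs0 y).eq_or_lt with h | h
    · have : ∑ i ∈ J, F i y = 0 := h.symm
      rw [← h, this, mul_zero, Real.zero_rpow hp0.ne']
    · rw [Real.rpow_sub_one h.ne']
      have : ∑ i ∈ J, F i y = s y := rfl
      rw [this, div_mul_cancel₀ _ h.ne']
  set τ : ℝ≥0∞ := ENNReal.ofReal (1 / (η * J.card)) * B with hτ
  refine ⟨J.filter fun i => κ i ≤ τ, Finset.filter_subset _ _, ?_, fun c hc => ?_⟩
  · -- the number of the deleted boxes
    have h1 : ((J.filter fun i => ¬ κ i ≤ τ).card : ℝ≥0∞) * τ ≤ B := by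
      rw [← nsmul_eq_mul, ← Finset.sum_const]
      calc ∑ i ∈ J.filter (fun i => ¬ κ i ≤ τ), τ ≤ ∑ i ∈ J.filter (fun i => ¬ κ i ≤ τ), κ i :=
            Finset.sum_le_sum fun i hi => (not_le.1 (Finset.mem_filter.1 hi).2).le
        _ ≤ ∑ i ∈ J, κ i := Finset.sum_le_sum_of_subset (Finset.filter_subset _ _)
        _ ≤ B := hκsum
    have h2 : ((J.filter fun i => ¬ κ i ≤ τ).card : ℝ) ≤ η * J.card := by
      rcases eq_or_ne B 0 with hB0 | hB0
      · have : J.filter (fun i => ¬ κ i ≤ τ) = ∅ := by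
          refine Finset.filter_eq_empty_iff.2 fun i hi => ?_
          rw [not_not]
          have : κ i ≤ ∑ i ∈ J, κ i := Finset.single_le_sum (fun _ _ => zero_le) hi
          refine this.trans (hκsum.trans ?_)
          rw [hB0]
          exact zero_le
        rw [this]
        simp only [Finset.card_empty, Nat.cast_zero]
        positivity
      · have h3 : ((J.filter fun i => ¬ κ i ≤ τ).card : ℝ≥0∞) * ENNReal.ofReal (1 / (η * J.card)) ≤
            1 := by
          rw [hτ, ← mul_assoc] at h1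
          by_contra hcon
          rw [not_le] at hcon
          have : 1 * B < ((J.filter fun i => ¬ κ i ≤ τ).card : ℝ≥0∞) *
              ENNReal.ofReal (1 / (η * J.card)) * B :=
            ENNReal.mul_lt_mul_left hB0 hB hcon
          rw [one_mul] at this
          exact absurd h1 (not_le.2 this)
        rw [← ENNReal.ofReal_natCast, ← ENNReal.ofReal_mul (Nat.cast_nonneg _),
          ← ENNReal.ofReal_one, ENNReal.ofReal_le_ofReal_iff (by norm_num), mul_one_div,
          div_le_one (by positivity)] at h3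
        exact h3
    have h3 := Finset.card_filter_add_card_filter_not (s := J) (fun i => κ i ≤ τ)
    have h4 : (J.card : ℝ) = (J.filter fun i => κ i ≤ τ).card +
        (J.filter fun i => ¬ κ i ≤ τ).card := by
      rw [← h3]
      push_cast
      rfl
    linarith
  · -- the inequality
    set I : Finset ι := J.filter fun i => κ i ≤ τ with hI
    have hIJ : I ⊆ J := Finset.filter_subset _ _
    have h1 : ∀ y, ENNReal.ofReal (boxSum N ω f a I c y) ^ p ≤
        ∑ i ∈ I, ENNReal.ofReal (c i ^ p) * ENNReal.ofReal (s y ^ (p - 1) * F i y) := by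
      intro y
      rw [ENNReal.ofReal_rpow_of_nonneg (boxSum_nonneg N ω f a I c hc y) hp0.le]
      have e1 : ∑ i ∈ I, ENNReal.ofReal (c i ^ p) * ENNReal.ofReal (s y ^ (p - 1) * F i y) =
          ENNReal.ofReal (s y ^ (p - 1) * ∑ i ∈ I, F i y * c i ^ p) := by
        rw [Finset.mul_sum, ENNReal.ofReal_sum_of_nonneg fun i _ =>
          mul_nonneg (Real.rpow_nonneg (hs0 y) _)
            (mul_nonneg (hF0 i y) (Real.rpow_nonneg (hc i) _))]
        refine Finset.sum_congr rfl fun i _ => ?_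
        rw [← ENNReal.ofReal_mul (Real.rpow_nonneg (hc i) _)]
        congr 1
        ring
      rw [e1]
      refine ENNReal.ofReal_le_ofReal ?_
      refine (jensen I (fun i => F i y) c (fun i => hF0 i y) hc hp).trans ?_
      have h2 : ∑ i ∈ I, F i y ≤ s y :=
        Finset.sum_le_sum_of_subset_of_nonneg hIJ fun i _ _ => hF0 i y
      have h3 : 0 ≤ ∑ i ∈ I, F i y := Finset.sum_nonneg fun i _ => hF0 i y
      have h4 : 0 ≤ ∑ i ∈ I, F i y * c i ^ p := Finset.sum_nonneg fun i _ =>
        mul_nonneg (hF0 i y) (Real.rpow_nonneg (hc i) _)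
      have h5 : (∑ i ∈ I, F i y) ^ (p - 1) ≤ s y ^ (p - 1) :=
        Real.rpow_le_rpow h3 h2 (by linarith)
      gcongr
    refine (lintegral_mono h1).trans ?_
    rw [lintegral_finsetSum _ fun i _ => (hκm i).const_mul _]
    have h6 : ∀ i ∈ I, ∫⁻ y, ENNReal.ofReal (c i ^ p) * ENNReal.ofReal (s y ^ (p - 1) * F i y) ≤
        ENNReal.ofReal (c i ^ p) * τ := by
      intro i hi
      rw [lintegral_const_mul _ (hκm i)]
      have : κ i ≤ τ := (Finset.mem_filter.1 hi).2
      gcongr
    refine (Finset.sum_le_sum h6).trans (le_of_eq ?_)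
    rw [← Finset.sum_mul, ← ENNReal.ofReal_sum_of_nonneg fun i _ => Real.rpow_nonneg (hc i) _, hτ,
      ← mul_assoc, ← ENNReal.ofReal_mul (Finset.sum_nonneg fun i _ => Real.rpow_nonneg (hc i) _),
      mul_one_div]

theorem lp_eq {g : Space d → ℝ} (hg : ∀ y, 0 ≤ g y) {p : ℝ} (hp : 1 ≤ p) :
    eLpNorm g (ENNReal.ofReal p) volume = (∫⁻ y, ENNReal.ofReal (g y) ^ p) ^ (1 / p) := by
  have hp0 : 0 < p := by linarith
  rw [eLpNorm_eq_lintegral_rpow_enorm_toReal (by simpa using hp0) ENNReal.ofReal_ne_top,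
    ENNReal.toReal_ofReal hp0.le]
  congr 1
  refine lintegral_congr fun y => ?_
  rw [Real.enorm_of_nonneg (hg y)]

theorem one_nonneg {ι : Type} : ∀ i : ι, (0 : ℝ) ≤ (1 : ι → ℝ) i := fun _ => zero_le_one

theorem boxSum_mono {ι : Type} (N : ℝ) (ω : ι → Vec d) (f : ι → Fin d → Space d)
    (a : ι → Space d) {J J' : Finset ι} (h : J ⊆ J') (y : Space d) :
    boxSum N ω f a J 1 y ≤ boxSum N ω f a J' 1 y :=
  Finset.sum_le_sum_of_subset_of_nonneg h fun i _ _ =>
    mul_nonneg zero_le_one (ind_nonneg N ω f a i y)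

theorem strong_of_tube (h : TubeForm d) : StrongOffFew d := by
  classical
  intro ε σ S hε hσ hσ1
  obtain ⟨C, hC, h1⟩ := h ε σ S hε hσ hσ1
  refine ⟨C, hC, fun N hN ι _ ω f hcaps a p hp J η hη => ?_⟩
  have hp0 : 0 < p := by linarith
  have hN0 : 0 < N := by linarith
  rcases J.eq_empty_or_nonempty with rfl | hne
  · refine ⟨∅, subset_rfl, by simp, fun c _ => ?_⟩
    have : boxSum N ω f a ∅ c = 0 := by
      funext y
      simp [boxSum]
    rw [this, eLpNorm_zero]
    exact zero_le
  have hJ0 : (0 : ℝ) < J.card := by exact_mod_cast hne.card_pos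
  have hpe : 1 ≤ ENNReal.ofReal p := by
    rw [← ENNReal.ofReal_one]
    exact ENNReal.ofReal_le_ofReal hp
  have h2 := h1 N hN ι ω f hcaps a (ENNReal.ofReal p) hpe
  set X : ℝ≥0∞ := eLpNorm (boxSum N ω f 0 Finset.univ 1) (ENNReal.ofReal p) volume with hX
  rcases eq_or_ne X ∞ with hX' | hX'
  · refine ⟨J, subset_rfl, by nlinarith, fun c hc => ?_⟩
    rw [hX']
    by_cases h3 : ∀ i ∈ J, c i = 0
    · have : boxSum N ω f a J c = 0 := by
        funext y
        exact Finset.sum_eq_zero fun i hi => by rw [h3 i hi, zero_mul]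
      rw [this, eLpNorm_zero]
      exact zero_le
    · push Not at h3
      obtain ⟨i, hi, hci⟩ := h3
      have h4 : 0 < ∑ i ∈ J, c i ^ p := by
        refine Finset.sum_pos' (fun j _ => Real.rpow_nonneg (hc j) _) ⟨i, hi, ?_⟩
        exact Real.rpow_pos_of_pos (lt_of_le_of_ne (hc i) (Ne.symm hci)) _
      rw [ENNReal.mul_top]
      · exact le_top
      · rw [Ne, ENNReal.ofReal_eq_zero, not_le]
        positivity
  · set B : ℝ≥0∞ := (ENNReal.ofReal (C * N ^ ε) * X) ^ p with hB
    have hBt : B ≠ ∞ :=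
      ENNReal.rpow_ne_top_of_nonneg hp0.le (ENNReal.mul_ne_top ENNReal.ofReal_ne_top hX')
    have h3 : ∫⁻ y, ENNReal.ofReal (boxSum N ω f a J 1 y) ^ p ≤ B := by
      calc ∫⁻ y, ENNReal.ofReal (boxSum N ω f a J 1 y) ^ p
          ≤ ∫⁻ y, ENNReal.ofReal (boxSum N ω f a Finset.univ 1 y) ^ p := by
            refine lintegral_mono fun y => ?_
            have := boxSum_mono N ω f a (Finset.subset_univ J) y
            gcongr
        _ = (eLpNorm (boxSum N ω f a Finset.univ 1) (ENNReal.ofReal p) volume) ^ p := by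
            rw [lp_eq (boxSum_nonneg N ω f a _ 1 one_nonneg) hp, ← ENNReal.rpow_mul,
              one_div_mul_cancel hp0.ne', ENNReal.rpow_one]
        _ ≤ B := by
            rw [hB]
            gcongr
    obtain ⟨I, hIJ, hcard, h4⟩ := off_few N ω f a hp J B hBt h3 η hη
    refine ⟨I, hIJ, hcard, fun c hc => ?_⟩
    rw [lp_eq (boxSum_nonneg N ω f a I c hc) hp]
    have h5 : 0 ≤ (∑ i ∈ I, c i ^ p) / (η * J.card) := div_nonneg
      (Finset.sum_nonneg fun i _ => Real.rpow_nonneg (hc i) _) (by positivity)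
    calc (∫⁻ y, ENNReal.ofReal (boxSum N ω f a I c y) ^ p) ^ (1 / p)
        ≤ (ENNReal.ofReal ((∑ i ∈ I, c i ^ p) / (η * J.card)) * B) ^ (1 / p) := by
          have := h4 c hc
          gcongr
      _ = ENNReal.ofReal (((∑ i ∈ I, c i ^ p) / (η * J.card)) ^ (1 / p)) *
          (ENNReal.ofReal (C * N ^ ε) * X) := by
          rw [ENNReal.mul_rpow_of_nonneg _ _ (by positivity), hB, ← ENNReal.rpow_mul,
            mul_one_div_cancel hp0.ne', ENNReal.rpow_one,
            ENNReal.ofReal_rpow_of_nonneg h5 (by positivity)]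
      _ = _ := by
          rw [← mul_assoc, ← ENNReal.ofReal_mul (Real.rpow_nonneg h5 _)]
          congr 2
          ring

theorem some_of_strong (h : StrongOffFew d) : SomePart d := by
  classical
  intro ε σ S hε hσ hσ1
  obtain ⟨C, hC, h1⟩ := h ε σ S hε hσ hσ1
  refine ⟨2 * C + 2, by positivity, fun N hN ι _ ω f hcaps a p hp J => ?_⟩
  have hp0 : 0 < p := by linarith
  have hN0 : 0 < N := by linarith
  have hNε : 1 ≤ N ^ ε := Real.one_le_rpow hN hε.le
  obtain ⟨I, hIJ, hcard, h2⟩ := h1 N hN ι ω f hcaps a p hp J (1 / 2) (by norm_num)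
  have h3 : (J.card : ℝ) ≤ 2 * I.card := by linarith
  have hIJ' : (I.card : ℝ) ≤ J.card := by exact_mod_cast Finset.card_le_card hIJ
  refine ⟨I, hIJ, ?_, ?_⟩
  · refine h3.trans ?_
    gcongr
    nlinarith
  · refine (h2 1 one_nonneg).trans ?_
    have h4 : (∑ i ∈ I, (1 : ι → ℝ) i ^ p) / (1 / 2 * J.card) ≤ 2 := by
      have e1 : ∑ i ∈ I, (1 : ι → ℝ) i ^ p = I.card := by simp
      rw [e1]
      rcases (Nat.cast_nonneg J.card : (0 : ℝ) ≤ J.card).eq_or_lt with h | h
      · rw [← h, mul_zero, _root_.div_zero]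
        norm_num
      · rw [div_le_iff₀ (by positivity)]
        linarith
    have h40 : 0 ≤ (∑ i ∈ I, (1 : ι → ℝ) i ^ p) / (1 / 2 * J.card) := by
      have e1 : ∑ i ∈ I, (1 : ι → ℝ) i ^ p = I.card := by simp
      rw [e1]
      positivity
    have h5 : ((∑ i ∈ I, (1 : ι → ℝ) i ^ p) / (1 / 2 * J.card)) ^ (1 / p) ≤ 2 := by
      calc ((∑ i ∈ I, (1 : ι → ℝ) i ^ p) / (1 / 2 * J.card)) ^ (1 / p) ≤ 2 ^ (1 / p) := by
            gcongr
        _ ≤ (2 : ℝ) ^ (1 : ℝ) := by
            apply Real.rpow_le_rpow_of_exponent_le (by norm_num)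
            rw [div_le_one hp0]
            exact hp
        _ = 2 := Real.rpow_one 2
    have h6 : C * N ^ ε * ((∑ i ∈ I, (1 : ι → ℝ) i ^ p) / (1 / 2 * J.card)) ^ (1 / p) ≤
        (2 * C + 2) * N ^ ε := by
      calc C * N ^ ε * ((∑ i ∈ I, (1 : ι → ℝ) i ^ p) / (1 / 2 * J.card)) ^ (1 / p)
          ≤ C * N ^ ε * 2 := by gcongr
        _ ≤ _ := by nlinarith
    gcongr

theorem tube_top {ι : Type} [Fintype ι] {σ S N : ℝ} (hN : 1 ≤ N) {ω : ι → Vec d}
    {f : ι → Fin d → Space d} (hcaps : FullCaps σ S N ω f) (a : ι → Space d) :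
    eLpNorm (boxSum N ω f a Finset.univ 1) ∞ volume ≤
      eLpNorm (boxSum N ω f 0 Finset.univ 1) ∞ volume := by
  have h1 : eLpNorm (boxSum N ω f a Finset.univ 1) ∞ volume ≤
      ENNReal.ofReal (Fintype.card ι) := by
    rw [eLpNorm_exponent_top]
    refine eLpNormEssSup_le_of_ae_bound (Filter.Eventually.of_forall fun y => ?_)
    rw [Real.norm_of_nonneg (boxSum_nonneg N ω f a _ 1 one_nonneg y)]
    calc boxSum N ω f a Finset.univ 1 y ≤ ∑ i : ι, (1 : ℝ) := by
          refine Finset.sum_le_sum fun i _ => ?_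
          simp only [Pi.one_apply, one_mul]
          exact Set.indicator_le_self' (fun _ _ => zero_le_one) y |>.trans le_rfl
      _ = Fintype.card ι := by simp
  have h2 : eLpNorm ((ball (0 : Space d) (N / 2)).indicator fun _ => (Fintype.card ι : ℝ)) ∞ volume ≤
      eLpNorm (boxSum N ω f 0 Finset.univ 1) ∞ volume := by
    refine eLpNorm_mono fun y => ?_
    by_cases hy : y ∈ ball (0 : Space d) (N / 2)
    · rw [Set.indicator_of_mem hy]
      have : boxSum N ω f 0 Finset.univ 1 y = Fintype.card ι := by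
        unfold boxSum
        have : ∀ i ∈ Finset.univ, (1 : ι → ℝ) i *
            (box N (nor (ω i)) (f i) ((0 : ι → Space d) i)).indicator (fun _ => (1 : ℝ)) y = 1 := by
          intro i _
          have hm : y ∈ box N (nor (ω i)) (f i) ((0 : ι → Space d) i) :=
            ball_sub_box hN (hcaps.2.2.2 i) hy
          rw [Set.indicator_of_mem hm]
          simp
        rw [Finset.sum_congr rfl this]
        simp
      rw [this]
    · rw [Set.indicator_of_notMem hy, norm_zero]
      exact norm_nonneg _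
  have h3 : eLpNorm ((ball (0 : Space d) (N / 2)).indicator fun _ => (Fintype.card ι : ℝ)) ∞ volume =
      ENNReal.ofReal (Fintype.card ι) := by
    rw [eLpNorm_indicator_const' isOpen_ball.measurableSet
      (measure_ball_pos volume _ (by linarith)).ne' (by simp)]
    simp
  rw [h3] at h2
  exact h1.trans h2

theorem tube_of_some (h : SomePart d) : TubeForm d := by
  classical
  intro ε σ S hε hσ hσ1
  obtain ⟨C₀, hC₀, h1⟩ := h (ε / 3) σ S (by positivity) hσ hσ1
  set δ : ℝ := ε / 3 with hδ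
  have hδ0 : 0 < δ := by positivity
  set C : ℝ := max C₀ 1 with hC
  have hC1 : 1 ≤ C := le_max_right _ _
  have hC0 : C₀ ≤ C := le_max_left _ _
  have hd0 : (0 : ℝ) ≤ d := Nat.cast_nonneg d
  set A : ℝ := Real.log (10 * (d + 1) / σ) with hA
  have hA1 : 1 ≤ 10 * ((d : ℝ) + 1) / σ := by
    rw [le_div_iff₀ hσ]
    nlinarith
  have hA0 : 0 ≤ A := Real.log_nonneg hA1
  set G : ℝ := C * (1 + C * (d * (A + 1 / δ))) with hG
  have hG1 : 1 ≤ G := by
    have : 0 ≤ C * (d * (A + 1 / δ)) := by positivity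
    rw [hG]
    nlinarith
  refine ⟨G, by linarith, fun N hN ι _ ω f hcaps a p hp => ?_⟩
  have hN0 : 0 < N := by linarith
  have hNε : 1 ≤ N ^ ε := Real.one_le_rpow hN hε.le
  have hNδ : 1 ≤ N ^ δ := Real.one_le_rpow hN hδ0.le
  rcases eq_or_ne p ∞ with rfl | hpt
  · refine (tube_top hN hcaps a).trans ?_
    have : (1 : ℝ≥0∞) ≤ ENNReal.ofReal (G * N ^ ε) := by
      rw [← ENNReal.ofReal_one]
      refine ENNReal.ofReal_le_ofReal ?_
      nlinarith
    calc eLpNorm (boxSum N ω f 0 Finset.univ 1) ∞ volume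
        = 1 * eLpNorm (boxSum N ω f 0 Finset.univ 1) ∞ volume := (one_mul _).symm
      _ ≤ _ := by gcongr
  set q : ℝ := p.toReal with hq
  have hpq : p = ENNReal.ofReal q := (ENNReal.ofReal_toReal hpt).symm
  have hq1 : 1 ≤ q := by
    rw [hq, ← ENNReal.toReal_one]
    exact ENNReal.toReal_mono hpt hp
  set X : ℝ≥0∞ := eLpNorm (boxSum N ω f 0 Finset.univ 1) p volume with hX
  set R : ℝ := C * N ^ δ with hR
  have hR1 : 1 ≤ R := by
    rw [hR]
    nlinarith
  have hR0 : 0 < R := by linarith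
  have main : ∀ J : Finset ι, J.Nonempty → eLpNorm (boxSum N ω f a J 1) p volume ≤
      ENNReal.ofReal (R * (1 + R * Real.log J.card)) * X := by
    intro J
    induction J using Finset.strongInduction with
    | H J ih =>
      intro hne
      have hJ0 : (0 : ℝ) < J.card := by exact_mod_cast hne.card_pos
      have hJ1 : (1 : ℝ) ≤ J.card := by exact_mod_cast hne.card_pos
      obtain ⟨I, hIJ, hI, h2⟩ := h1 N hN ι ω f hcaps a q hq1 J
      rw [← hpq, ← hX] at h2
      have hI' : (J.card : ℝ) ≤ R * I.card := by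
        refine hI.trans ?_
        rw [hR]
        exact mul_le_mul_of_nonneg_right (mul_le_mul_of_nonneg_right hC0
          (Real.rpow_nonneg hN0.le δ)) (Nat.cast_nonneg _)
      have hI0 : (0 : ℝ) < I.card := by
        by_contra hcon
        push Not at hcon
        have : (I.card : ℝ) = 0 := le_antisymm hcon (Nat.cast_nonneg _)
        rw [this, mul_zero] at hI'
        linarith
      have h3 : eLpNorm (boxSum N ω f a I 1) p volume ≤ ENNReal.ofReal R * X := by
        refine h2.trans ?_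
        have : C₀ * N ^ δ ≤ R := by
          rw [hR]
          exact mul_le_mul_of_nonneg_right hC0 (Real.rpow_nonneg hN0.le δ)
        exact mul_le_mul_left (ENNReal.ofReal_le_ofReal this) X
      have hlog : 0 ≤ Real.log J.card := Real.log_nonneg hJ1
      have e1 : boxSum N ω f a J 1 = boxSum N ω f a I 1 + boxSum N ω f a (J \ I) 1 := by
        funext y
        simp only [Pi.add_apply, boxSum]
        rw [add_comm, Finset.sum_sdiff hIJ]
      rcases (J \ I).eq_empty_or_nonempty with h7 | h7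
      · have h8 : boxSum N ω f a (J \ I) 1 = 0 := by
          funext y
          simp [boxSum, h7]
        rw [e1, h8, add_zero]
        refine h3.trans ?_
        have : R ≤ R * (1 + R * Real.log J.card) := by
          have : 0 ≤ R * Real.log J.card := by positivity
          nlinarith
        gcongr
      · have h8 : J \ I ⊂ J := by
          refine ⟨Finset.sdiff_subset, fun hcon => ?_⟩
          have h9 : I.Nonempty := by
            rw [← Finset.card_pos]
            exact_mod_cast hI0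
          obtain ⟨n, hn⟩ := h9
          have := hcon (hIJ hn)
          rw [Finset.mem_sdiff] at this
          exact this.2 hn
        have h9 := ih _ h8 h7
        have h10 : (0 : ℝ) < (J \ I).card := by exact_mod_cast h7.card_pos
        have h11 : ((J \ I).card : ℝ) = J.card - I.card := by
          rw [eq_sub_iff_add_eq]
          exact_mod_cast Finset.card_sdiff_add_card_eq_card hIJ
        have h12 : Real.log ((J \ I).card) ≤ Real.log J.card - 1 / R := by
          have h13 : Real.log ((J \ I).card / J.card) ≤ (J \ I).card / J.card - 1 :=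
            Real.log_le_sub_one_of_pos (_root_.div_pos h10 hJ0)
          rw [Real.log_div h10.ne' hJ0.ne'] at h13
          have h14 : ((J \ I).card : ℝ) / J.card - 1 ≤ - (1 / R) := by
            rw [h11, _root_.sub_div, div_self hJ0.ne']
            have : 1 / R ≤ I.card / J.card := by
              rw [div_le_div_iff₀ (by linarith) hJ0]
              linarith
            linarith
          linarith
        have h15 : 1 + R * Real.log ((J \ I).card) ≤ R * Real.log J.card := by
          have : R * Real.log ((J \ I).card) ≤ R * (Real.log J.card - 1 / R) := by gcongr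
          have e2 : R * (Real.log J.card - 1 / R) = R * Real.log J.card - 1 := by
            field_simp
          linarith
        have h16 : 0 ≤ Real.log ((J \ I).card) := Real.log_nonneg (by exact_mod_cast h7.card_pos)
        rw [e1]
        calc eLpNorm (boxSum N ω f a I 1 + boxSum N ω f a (J \ I) 1) p volume
            ≤ eLpNorm (boxSum N ω f a I 1) p volume +
              eLpNorm (boxSum N ω f a (J \ I) 1) p volume :=
              eLpNorm_add_le (boxSum_meas N ω f a I 1).aestronglyMeasurable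
                (boxSum_meas N ω f a (J \ I) 1).aestronglyMeasurable hp
          _ ≤ ENNReal.ofReal R * X +
              ENNReal.ofReal (R * (1 + R * Real.log ((J \ I).card))) * X := add_le_add h3 h9
          _ = ENNReal.ofReal (R + R * (1 + R * Real.log ((J \ I).card))) * X := by
              rw [← add_mul, ENNReal.ofReal_add hR0.le (by positivity)]
          _ ≤ _ := by
              have : R + R * (1 + R * Real.log ((J \ I).card)) ≤
                  R * (1 + R * Real.log J.card) := by nlinarith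
              gcongr
  have hne : (Finset.univ : Finset ι).Nonempty := by
    obtain ⟨i, -⟩ := hcaps.2.2.1 0 (by simp)
    exact ⟨i, Finset.mem_univ i⟩
  have h2 := main Finset.univ hne
  refine h2.trans ?_
  have hcard := card_caps hσ hσ1 hN ω hcaps.1 hcaps.2.1
  have hc0 : (0 : ℝ) < Fintype.card ι := by
    have := hne.card_pos
    rw [Finset.card_univ] at this
    exact_mod_cast this
  have h3 : Real.log (Fintype.card ι) ≤ N ^ δ * (d * (A + 1 / δ)) := by
    calc Real.log (Fintype.card ι) ≤ Real.log ((10 * (d + 1) / σ * N) ^ d) :=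
          Real.log_le_log hc0 hcard
      _ = d * (A + Real.log N) := by
          rw [Real.log_pow, Real.log_mul (by positivity) hN0.ne']
      _ ≤ d * (N ^ δ * A + N ^ δ / δ) := by
          have h4 : Real.log N ≤ N ^ δ / δ := Real.log_le_rpow_div hN0.le hδ0
          have h5 : A ≤ N ^ δ * A := by nlinarith
          gcongr
      _ = _ := by ring
  have h4 : R * (1 + R * Real.log (Finset.univ : Finset ι).card) ≤ G * N ^ ε := by
    rw [Finset.card_univ]
    have e3 : N ^ ε = N ^ δ * (N ^ δ * N ^ δ) := by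
      rw [← Real.rpow_add hN0, ← Real.rpow_add hN0]
      congr 1
      rw [hδ]
      ring
    have h5 : R * Real.log (Fintype.card ι) ≤ C * N ^ δ * (N ^ δ * (d * (A + 1 / δ))) := by
      rw [hR]
      gcongr
    have h6 : 1 ≤ N ^ δ * N ^ δ := by nlinarith
    calc R * (1 + R * Real.log (Fintype.card ι))
        ≤ C * N ^ δ * (N ^ δ * N ^ δ + C * N ^ δ * (N ^ δ * (d * (A + 1 / δ)))) := by
          rw [hR] at h5 ⊢
          gcongr
      _ = G * N ^ ε := by
          rw [e3, hG]
          ring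
  gcongr

/-- **The equivalence**, in every dimension `n = d + 1`. -/
theorem result (d : ℕ) : List.TFAE [TubeForm d, StrongOffFew d, SomePart d] := by
  tfae_have 1 → 2 := strong_of_tube
  tfae_have 2 → 3 := some_of_strong
  tfae_have 3 → 1 := tube_of_some
  tfae_finish

end Pool.Agent.Results.MP_ac5134_an.DeletedBoxes
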