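import Pool.Agent.Q184.ST.Net

set_option autoImplicit false

/-!
# MP_ac5134: the volume form without any loss in `N` for coarsely Lipschitz translates

Work in `ℝ^n = ℝ^d × ℝ`, `n = d + 1 ≥ 3`, with its Euclidean norm (`Space d`), and let `P` be the
paraboloid `{(ω, |ω|²)}`, `|ω| ≤ 1`.  The box dual to the cap at `ω` is `box N (nor ω) f 0`: its long
side `N²` is in the direction of the unit normal `nor ω = (-2ω, 1)/√(1+4|ω|²)` and its other sides `N`
are in the directions of an arbitrary orthonormal frame `f` of the orthogonal complement.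

The centres `ω i` of the caps are `σ/N`-separated and form an `S/N`-net of the unit ball (this is the
full family of the `≈ N^(n-1)` caps of the problem).  The box of the cap at `ω i` is translated to the
centre `a i`, where `|a i - a j| ≤ L (N² |ω i - ω j| + S N)`: the centres are a Lipschitz function of
the cap, at the scale of the boxes, up to an error comparable with the width of the boxes.  Then
`|⋃ T i| ≥ c (σ/S)^(n-1) (1 + L)^(-n(n-1)) ∑ |T i|` with `c = c(n) > 0`, for every `N`: no loss in `N`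
(the Besicovitch configurations, with centres that are not Lipschitz, lose a logarithm).
No hypothesis is made on the overlap of the boxes.
-/

open MeasureTheory Set
open scoped ENNReal

namespace Pool.Agent.Results.MP_ac5134_an.NetTranslates

/-- Euclidean space `ℝ^d`. -/
abbrev Vec (d : ℕ) : Type := EuclideanSpace ℝ (Fin d)

/-- Euclidean space `ℝ^{d+1}`, written as `ℝ^d × ℝ` with the Euclidean norm. -/
abbrev Space (d : ℕ) : Type := WithLp 2 (Vec d × ℝ)

/-- The unit normal `(-2ω, 1)/√(1+4|ω|²)` of the paraboloid at `(ω, |ω|²)`. -/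
noncomputable def nor {d : ℕ} (ω : Vec d) : Space d :=
  (√(1 + ‖(-(2 : ℝ)) • ω‖ ^ 2))⁻¹ • WithLp.toLp 2 ((-(2 : ℝ)) • ω, (1 : ℝ))

/-- The box with centre `a`, side `N²` in the direction `u` and sides `N` in the directions `f j`. -/
def box {d : ℕ} (N : ℝ) (u : Space d) (f : Fin d → Space d) (a : Space d) : Set (Space d) :=
  {y | |inner ℝ u (y - a)| ≤ N ^ 2 / 2 ∧ ∀ j, |inner ℝ (f j) (y - a)| ≤ N / 2}

/-- The caps have centres `ω i` in the closed unit ball, `σ/N`-separated and an `S/N`-net of the ball,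
and `f i` is an orthonormal frame of the orthogonal complement of the normal at `ω i`. -/
def FullCaps {d : ℕ} {ι : Type} (σ S N : ℝ) (ω : ι → Vec d) (f : ι → Fin d → Space d) : Prop :=
  (∀ i, ‖ω i‖ ≤ 1) ∧ (∀ i j, i ≠ j → σ / N ≤ ‖ω i - ω j‖) ∧
    (∀ w : Vec d, ‖w‖ ≤ 1 → ∃ i, ‖w - ω i‖ ≤ S / N) ∧
    ∀ i, Orthonormal ℝ (Fin.cons (nor (ω i)) (f i) : Fin (d + 1) → Space d)

/-- **The volume form without loss for coarsely Lipschitz translates.** -/
theorem result (d : ℕ) (hd : 2 ≤ d) : ∃ c : ℝ, 0 < c ∧ ∀ (σ S L N : ℝ), 0 < σ → σ ≤ 1 → 1 ≤ S →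
    0 ≤ L → 1 ≤ N → ∀ (ι : Type) [Fintype ι] (ω : ι → Vec d) (f : ι → Fin d → Space d),
    FullCaps σ S N ω f → ∀ (a : ι → Space d),
      (∀ i j, ‖a i - a j‖ ≤ L * (N ^ 2 * ‖ω i - ω j‖ + S * N)) →
      ENNReal.ofReal (c * (σ / S) ^ d * ((1 + L) ^ (d * (d + 1)))⁻¹) *
          ∑ i, volume (box N (nor (ω i)) (f i) (a i)) ≤
        volume (⋃ i, box N (nor (ω i)) (f i) (a i)) := by
  obtain ⟨c, hc, h⟩ := Pool.Agent.Q184.ST.net (d := d) hd
  refine ⟨c, hc, ?_⟩
  intro σ S L N hσ hσ1 hS hL hN ι _ ω f hcaps a ha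
  obtain ⟨hω, hsep, hnet, hf⟩ := hcaps
  exact h σ S L N hσ hσ1 hS hL hN ι ω f hω hsep hnet hf a ha

end Pool.Agent.Results.MP_ac5134_an.NetTranslates
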