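import Pool.Agent.Q184.KR.Push

set_option autoImplicit false
set_option maxHeartbeats 1000000

/-!
# MP_ac5134: the Kakeya inequality in tube form for translates along rough families of lines

Work in `ℝ^n = ℝ^d × ℝ`, `n = d + 1`, with its Euclidean norm (`Space d`), and let `P` be the
paraboloid `{(ω, |ω|²)}`, `|ω| ≤ 1`.  The box dual to the cap at `ω` is `box N (nor ω) f 0`: its long
side `N²` is in the direction of the unit normal `nor ω = (-2ω, 1)/√(1+4|ω|²)` and its other sides `N`
are in the directions of an arbitrary orthonormal frame `f` of the orthogonal complement.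

The boxes are translated along a *rough* family of lines: `b` is a map on a measurable set `B` of
parameters without any continuity, Lipschitz constant or bound, and the axis of the box at `ω i` is
`K N`-close to the line number `w`, through `(N² b w, 0)`, for a proportion `θ` of the parameters `w`
near `ω i`.  About `b` we assume one of

* (rough) up to a null set `B` is a countable union of measurable sets on each of which `b` is
  Lipschitz, with any constants, and almost every point of almost every height is on at most `M` of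
  the lines `{b w + t w : w ∈ B}`;
* (monotone, `M = 1`) almost every section map `w ↦ b w + t w` is monotone on `B` after composition
  with an invertible linear map; no regularity of `b` is assumed.  This class contains, for `n = 3`,
  all continuous families of pairwise disjoint lines.

Then the conjectured comparison with the centred family holds for every `p` in `[1, ∞]` with one
constant `C ((1 + M) / θ)^(1/(n-1)) (1 + K + S)^(n-1) N^ε`; the constant does not depend on any
Lipschitz constant.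
-/

open MeasureTheory Set Filter Topology ENNReal NNReal Metric

namespace Pool.Agent.Results.MP_ac5134_an.RoughTranslates

/-- Euclidean space `ℝ^d`. -/
abbrev Vec (d : ℕ) : Type := EuclideanSpace ℝ (Fin d)

/-- Euclidean space `ℝ^{d+1}`, written as `ℝ^d × ℝ` with the Euclidean norm. -/
abbrev Space (d : ℕ) : Type := WithLp 2 (Vec d × ℝ)

/-- The unit normal `(-2ω, 1)/√(1+4|ω|²)` of the paraboloid at `(ω, |ω|²)`. -/
noncomputable def nor {d : ℕ} (ω : Vec d) : Space d :=
  (√(1 + ‖(-(2 : ℝ)) • ω‖ ^ 2))⁻¹ • WithLp.toLp 2 ((-(2 : ℝ)) • ω, (1 : ℝ))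

/-- The box with centre `a`, side `N²` in the direction `u` and sides `N` in the directions `f j`. -/
def box {d : ℕ} (N : ℝ) (u : Space d) (f : Fin d → Space d) (a : Space d) : Set (Space d) :=
  {y | |inner ℝ u (y - a)| ≤ N ^ 2 / 2 ∧ ∀ j, |inner ℝ (f j) (y - a)| ≤ N / 2}

/-- The caps have centres `ω i` in the closed unit ball, `σ/N`-separated and at least `κ N^d` in
number, and `f i` is an orthonormal frame of the orthogonal complement of the normal at `ω i`. -/
def Caps {d : ℕ} {ι : Type} [Fintype ι] (σ κ N : ℝ) (ω : ι → Vec d) (f : ι → Fin d → Space d) : Prop :=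
  (∀ i, ‖ω i‖ ≤ 1) ∧ (∀ i j, i ≠ j → σ / N ≤ ‖ω i - ω j‖) ∧ κ * N ^ d ≤ (Fintype.card ι : ℝ) ∧
    ∀ i, Orthonormal ℝ (Fin.cons (nor (ω i)) (f i) : Fin (d + 1) → Space d)

/-- The sum of the indicators of the boxes of the caps with centres `a i`. -/
noncomputable def boxSum {d : ℕ} {ι : Type} [Fintype ι] (N : ℝ) (ω : ι → Vec d)
    (f : ι → Fin d → Space d) (a : ι → Space d) (y : Space d) : ℝ :=
  ∑ i, (box N (nor (ω i)) (f i) (a i)).indicator (fun _ => (1 : ℝ)) y

/-- The inequality of Q1 with constant `C`, for all exponents, for the boxes with centres `a i`. -/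
def Ineq {d : ℕ} {ι : Type} [Fintype ι] (C N : ℝ) (ω : ι → Vec d) (f : ι → Fin d → Space d)
    (a : ι → Space d) : Prop :=
  ∀ p : ℝ≥0∞, 1 ≤ p → eLpNorm (boxSum N ω f a) p volume ≤
    ENNReal.ofReal C * eLpNorm (boxSum N ω f 0) p volume

/-- Up to a null set, `B` is covered by countably many measurable sets on each of which `b` is
Lipschitz (with any constant). -/
def LipPieces {d : ℕ} (B : Set (Vec d)) (b : Vec d → Vec d) : Prop :=
  ∃ P : ℕ → Set (Vec d), (∀ k, MeasurableSet (P k)) ∧ volume (B \ ⋃ k, P k) = 0 ∧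
    ∀ k, ∃ C : ℝ≥0, LipschitzOnWith C b (P k)

/-- For almost every height `t`, almost every point of height `t` is on at most `M` of the lines
`{(b w + t w, t) : t ∈ ℝ}`, `w ∈ B`. -/
def OverlapLE {d : ℕ} (M : ℕ) (B : Set (Vec d)) (b : Vec d → Vec d) : Prop :=
  ∀ᵐ t : ℝ, ∀ᵐ y : Vec d, {w | w ∈ B ∧ b w + t • w = y}.encard ≤ M

/-- For almost every height `t` the section map `w ↦ b w + t w` is monotone on `B` after composition
with an invertible linear map `K` (which may depend on `t`). -/
def SectionMonotone {d : ℕ} (B : Set (Vec d)) (b : Vec d → Vec d) : Prop :=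
  ∀ᵐ t : ℝ, ∃ K : Vec d →L[ℝ] Vec d, K.det ≠ 0 ∧
    ∀ v ∈ B, ∀ w ∈ B, 0 ≤ inner ℝ (K ((b v + t • v) - (b w + t • w))) (v - w)

/-- The admissible families of lines: rough families of overlap at most `M`, and section-monotone
families (`M = 1`). -/
def Admissible {d : ℕ} (M : ℕ) (B : Set (Vec d)) (b : Vec d → Vec d) : Prop :=
  MeasurableSet B ∧ ((LipPieces B b ∧ OverlapLE M B b) ∨ (M = 1 ∧ SectionMonotone B b))

/-- The axis of the box at `ω i` is `K N`-close to the lines of the family: for a proportion at least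
`θ` of the `w` at distance less than `σ / (4 N)` from `ω i` one has `w ∈ B` and
`|β i - N² b w| ≤ K N`. -/
def Close {d : ℕ} {ι : Type} (σ N K θ : ℝ) (B : Set (Vec d)) (b : Vec d → Vec d) (ω β : ι → Vec d) :
    Prop :=
  ∀ i, ENNReal.ofReal θ * volume (ball (ω i) (σ / (4 * N))) ≤
    volume {w | w ∈ B ∧ ‖w - ω i‖ < σ / (4 * N) ∧ ‖β i - N ^ 2 • b w‖ ≤ K * N}

/-- A continuous family of pairwise disjoint lines in `ℝ³`. -/
def DisjointLines (b : Vec 2 → Vec 2) : Prop :=
  ContinuousOn b (ball 0 1) ∧ ∀ v ∈ ball (0 : Vec 2) 1, ∀ w ∈ ball (0 : Vec 2) 1, v ≠ w →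
    ∀ t : ℝ, b v + t • v ≠ b w + t • w

theorem nor_eq {d : ℕ} (ω : Vec d) : nor ω = Pool.Agent.H810R3.Tub.nor ω := rfl

theorem hasGood {d : ℕ} {M : ℕ} {B : Set (Vec d)} {b : Vec d → Vec d} (h : Admissible M B b) :
    Pool.Agent.TH221.Rough.HasGood M univ B b := by
  obtain ⟨hB, ⟨h1, h2⟩ | ⟨rfl, h1⟩⟩ := h
  · exact Pool.Agent.TH221.Rough.HasGood.of_lipPieces hB h1 (by
      filter_upwards [h2] with t ht _
      exact ht)
  · exact Pool.Agent.TH221.Rough.HasGood.of_sectionMonotone
      Pool.Agent.TH221.Rough.volume_univ_ne hB (by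
        filter_upwards [h1] with t ht _
        exact ht)

/-- **The Kakeya inequality in tube form, for all `p` in `[1, ∞]`, for translates along rough and
monotone families of lines.**  The centre of the box at `ω i` is the point of height `s i` on the line
through `(β i, 0)` in the direction of `(-2 ω i, 1)`.  The second part: for `n = 3` every continuous
family of pairwise disjoint lines is admissible, with `M = 1`. -/
theorem result :
    (∀ (d : ℕ), 1 ≤ d → ∀ (ε σ κ : ℝ), 0 < ε → 0 < σ → σ ≤ 1 → 0 < κ →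
      ∃ C : ℝ, 0 < C ∧ ∀ (M : ℕ) (B : Set (Vec d)) (b : Vec d → Vec d), Admissible M B b →
        ∀ (K S : ℝ≥0) (θ N : ℝ), 0 < θ → 1 ≤ N → ∀ (ι : Type) [Fintype ι] (ω β : ι → Vec d)
          (s : ι → ℝ) (f : ι → Fin d → Space d), Caps σ κ N ω f →
          (∀ i, |s i| ≤ S * N ^ 2) → Close σ N K θ B b ω β →
          Ineq (C * ((1 + M) / θ) ^ (1 / (d : ℝ)) * (1 + K + S) ^ d * N ^ ε) N ω f
            (fun i => WithLp.toLp 2 (β i + s i • (-(2 : ℝ) • ω i), s i))) ∧
    (∀ b : Vec 2 → Vec 2, DisjointLines b → Admissible 1 (ball 0 1) b) := by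
  refine ⟨?_, ?_⟩
  · intro d hd ε σ κ hε hσ hσ1 hκ
    have hd0 : (0 : ℝ) < d := by exact_mod_cast hd
    have hd1 : (1 : ℝ) ≤ d := by exact_mod_cast hd
    set η : ℝ := min ε (1 / (2 * d)) with hη
    have hη0 : 0 < η := lt_min hε (by positivity)
    have hηε : η ≤ ε := min_le_left _ _
    have hη3 : η ≤ 1 / (2 * d) := min_le_right _ _
    have hη2 : η ≤ 1 / 2 := hη3.trans (by
      apply div_le_div_of_nonneg_left (by norm_num) (by norm_num)
      linarith)
    have hη4 : d * η ≤ 1 := by
      calc d * η ≤ d * (1 / (2 * d)) := mul_le_mul_of_nonneg_left hη3 hd0.le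
        _ = 1 / 2 := by field_simp
        _ ≤ 1 := by norm_num
    have hdη : 0 < (d : ℝ) - η := by linarith
    set q : ℝ := ((d : ℝ) + 1) / (d - η) with hq
    have hq1 : 1 < q := by
      rw [hq, lt_div_iff₀ hdη]
      linarith
    have hqc : ((d : ℝ) + 1) / d < q := by
      rw [hq]
      apply div_lt_div_of_pos_left (by positivity) hdη
      linarith
    have hηq : d * q - d - 1 = η * q := by
      have : q * (d - η) = d + 1 := div_mul_cancel₀ _ hdη.ne'
      linarith
    obtain ⟨E, hE0, hE⟩ := Pool.Agent.Q184.KR.push_rough d hd q hqc σ hσ hσ1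
    have hw0 : 0 < Pool.Agent.H810R3.Tub.wv d := Pool.Agent.H810R3.Tub.wv_pos d
    set b₀ : ℝ := (1 + (d : ℝ)) ^ (d + 1) * Pool.Agent.H810R3.Tub.wv d with hb₀
    have hb0 : 0 < b₀ := by positivity
    set C0 : ℝ := max 1 (max (E * b₀ ^ (q - 1) * κ ^ (-(1 / (d : ℝ))))
      (E * κ ^ (-(1 / (d : ℝ))) * 2 ^ (d + 1) / Pool.Agent.H810R3.Tub.wv d)) with hC0
    have hC1 : 1 ≤ C0 := le_max_left _ _
    have hC2 : E * b₀ ^ (q - 1) * κ ^ (-(1 / (d : ℝ))) ≤ C0 := (le_max_left _ _).trans (le_max_right _ _)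
    have hC3 : E * κ ^ (-(1 / (d : ℝ))) * 2 ^ (d + 1) / Pool.Agent.H810R3.Tub.wv d ≤ C0 :=
      (le_max_right _ _).trans (le_max_right _ _)
    have hC00 : 0 < C0 := by linarith
    have hq0 : 0 < q := by linarith
    refine ⟨C0 ^ (1 / q), Real.rpow_pos_of_pos hC00 _, ?_⟩
    intro M B b hadm K S θ N hθ hN ι _ ω β s f ⟨hω, hsep, hcard, hf⟩ hs hβ p hp
    have hK0 : (0 : ℝ) ≤ K := K.2
    have hS0 : (0 : ℝ) ≤ S := S.2
    have hM0 : (0 : ℝ) ≤ M := Nat.cast_nonneg _
    have hN0 : 0 < N := by linarith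
    have hc0 : (0 : ℝ) < (Fintype.card ι : ℝ) := lt_of_lt_of_le (by positivity) hcard
    have hne : Nonempty ι := by
      rw [← Fintype.card_pos_iff]
      exact_mod_cast hc0
    have hθ1 : θ ≤ 1 := Pool.Agent.Q184.KR.Close.theta_le (K := K) (B := B) (b := b) hβ hσ hN0 hθ
    set X : ℝ := ((1 + M) / θ) ^ (1 / (d : ℝ)) * (1 + K + S) ^ d with hX
    have hMθ : 1 ≤ (1 + M) / θ := by
      rw [le_div_iff₀ hθ]
      linarith
    have hX1 : 1 ≤ X := by
      have h1 : (1 : ℝ) ≤ (1 + K + S) ^ d := one_le_pow₀ (by linarith)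
      have h2 : (1 : ℝ) ≤ ((1 + M) / θ) ^ (1 / (d : ℝ)) := Real.one_le_rpow hMθ (by positivity)
      rw [hX]
      nlinarith
    have hX0 : 0 < X := by linarith
    set D : ℝ := C0 ^ (1 / q) * X * N ^ ε with hD
    have hDe : C0 ^ (1 / q) * ((1 + M) / θ) ^ (1 / (d : ℝ)) * (1 + K + S) ^ d * N ^ ε = D := by
      rw [hD, hX]; ring
    have hD1 : 1 ≤ D := by
      have h1 : 1 ≤ C0 ^ (1 / q) := Real.one_le_rpow hC1 (by positivity)
      have h3 : 1 ≤ N ^ ε := Real.one_le_rpow hN hε.le
      calc (1 : ℝ) = 1 * 1 * 1 := by ring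
        _ ≤ C0 ^ (1 / q) * X * N ^ ε := by gcongr
    have hDq : D ^ q = C0 * X ^ q * N ^ (ε * q) := by
      rw [hD, Real.mul_rpow (by positivity) (by positivity),
        Real.mul_rpow (by positivity) (by positivity),
        ← Real.rpow_mul hC00.le, ← Real.rpow_mul hN0.le, one_div_mul_cancel hq0.ne', Real.rpow_one]
    -- the constant
    have hXq : (1 + M : ℝ) ^ (q - 1) * (1 + K + S) ^ (d + 1) * θ ^ (-(1 / (d : ℝ))) ≤ X ^ q := by
      have e1 : X ^ q = (1 + M : ℝ) ^ (q / d) * (1 + K + S : ℝ) ^ (d * q) * θ ^ (-(q / d)) := by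
        rw [hX, Real.mul_rpow (by positivity) (by positivity), Real.div_rpow (by positivity) hθ.le,
          Real.div_rpow (by positivity) (by positivity), ← Real.rpow_mul (by positivity),
          ← Real.rpow_mul hθ.le, ← Real.rpow_natCast (1 + (K : ℝ) + S) d,
          ← Real.rpow_mul (by positivity), Real.rpow_neg hθ.le]
        rw [one_div_mul_eq_div]
        ring
      rw [e1]
      have h1 : (1 + M : ℝ) ^ (q - 1) ≤ (1 + M : ℝ) ^ (q / d) := by
        apply Real.rpow_le_rpow_of_exponent_le (by linarith)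
        rw [le_div_iff₀ hd0]
        have hdd : 0 < (d : ℝ) - η := hdη
        have e2 : q * (d - η) = d + 1 := div_mul_cancel₀ _ hdη.ne'
        -- (q - 1) d ≤ q  iff  q (d - 1) ≤ d
        have e3 : q * (d - 1) ≤ d := by
          have h5 : (q * (d - 1)) * (d - η) ≤ d * (d - η) := by
            calc (q * (d - 1)) * (d - η) = (q * (d - η)) * (d - 1) := by ring
              _ = (d + 1) * (d - 1) := by rw [e2]
              _ ≤ d * (d - η) := by nlinarith
          exact le_of_mul_le_mul_right h5 hdd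
        linarith
      have h2 : (1 + K + S : ℝ) ^ (d + 1) ≤ (1 + K + S : ℝ) ^ (d * q) := by
        rw [← Real.rpow_natCast]
        apply Real.rpow_le_rpow_of_exponent_le (by linarith)
        push_cast
        have : 0 ≤ η * q := by positivity
        linarith
      have h3 : θ ^ (-(1 / (d : ℝ))) ≤ θ ^ (-(q / d)) := by
        apply Real.rpow_le_rpow_of_exponent_ge hθ hθ1
        have : 1 / (d : ℝ) ≤ q / d := by
          apply div_le_div_of_nonneg_right hq1.le hd0.le
        linarith
      gcongr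
    set Q : ℝ := E * X ^ q * N ^ (d + 2) * (Fintype.card ι : ℝ) ^ (q - 1 / d) with hQ
    have hQ0 : 0 < Q := by positivity
    have hQi : ∫⁻ y, Pool.Agent.H810R3.Tub.Fb N ω f
        (fun i => WithLp.toLp 2 (β i + s i • (-(2 : ℝ) • ω i), s i)) y ^ q ≤
        ENNReal.ofReal Q := by
      refine (hE K S M B b (hasGood hadm) θ hθ N hN ι ω β s f hω hsep hf hs hβ).trans
        (ENNReal.ofReal_le_ofReal ?_)
      rw [hQ]
      gcongr
    rw [hDe]
    refine Pool.Agent.H810R3.Tub.compare d hN hq1 hQ0 hD1 ω f hf _ hQi ?_ ?_ p hp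
    · rw [hDq]
      exact Pool.Agent.H810R3.Tub.arith1 hd0 hE0 (by positivity) hq1 hηq hηε hN hκ hcard hb0 hC2
    · rw [hDq]
      exact Pool.Agent.H810R3.Tub.arith2 hd0 hE0 (by positivity) hq1 hε hN hκ hcard hw0 hC3
  · rintro b ⟨hb, hdisj⟩
    refine ⟨measurableSet_ball, Or.inr ⟨rfl, ?_⟩⟩
    have h := Pool.Agent.H805R3.Kk.sectionMonotone_of_disjoint hb hdisj
    filter_upwards [h] with t ht
    exact ht (mem_univ _)

end Pool.Agent.Results.MP_ac5134_an.RoughTranslates
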