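import Pool.Agent.Q184.ST.Main

set_option autoImplicit false

/-!
# MP_ac5134: entropy and volume forms for translates given by a Sobolev function of the cap

Work in `ℝ^n = ℝ^d × ℝ`, `n = d + 1 ≥ 3`, with its Euclidean norm (`Space d`), and let `P` be the
paraboloid `{(ω, |ω|²)}`, `|ω| ≤ 1`.  The box dual to the cap at `ω` is `box N (nor ω) f 0`: its long
side `N²` is in the direction of the unit normal `nor ω = (-2ω, 1)/√(1+4|ω|²)` and its other sides `N`
are in the directions of an arbitrary orthonormal frame `f` of the orthogonal complement.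

The box of the cap at `ω i` is translated to the centre `a i`, where
`|a i - a j| ≤ N² (g i + g j) |ω i - ω j|` with weights `g i` of size `G` in weak `L^p`, for some
`0 < p < ∞`: at most `N^(n-1) (G / l)^p` of the weights are larger than `l`, for every `l > 0`.  So the
rescaled centres `a / N²` form a function of the cap of the Sobolev class `M^{1,p}` of Hajłasz (the boxes
with a large weight may be translated arbitrarily).  No hypothesis is made on the overlap of the boxes.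
Let `F = ∑ 1_{T i}` and
`X = (1 + G)^(2n²-1) (1 + log N)^(1 - κ)`,  `κ = p / ((n² + (n-1)²) (p + 2n² - 1))`.

* (entropy) `∫ F log⁺ F ≤ C X N^(2n)`; the trivial bound is `C (1 + log N) N^(2n)`.
* (sets) If `∑ |T i ∩ E| ≥ γ N^(2n)`, then `|E| ≥ exp (-(C/γ) X) N^(2n)`.
* (volume form) For every subfamily `J` of at least `γ N^(n-1)` boxes the union has volume at least
  `exp (-(C/γ) X) ∑_J |T i|`; the loss is smaller than every power of `N`.
-/

open MeasureTheory Set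
open scoped ENNReal

namespace Pool.Agent.Results.MP_ac5134_an.SobolevTranslates

/-- Euclidean space `ℝ^d`. -/
abbrev Vec (d : ℕ) : Type := EuclideanSpace ℝ (Fin d)

/-- Euclidean space `ℝ^{d+1}`, written as `ℝ^d × ℝ` with the Euclidean norm. -/
abbrev Space (d : ℕ) : Type := WithLp 2 (Vec d × ℝ)

/-- The unit normal `(-2ω, 1)/√(1+4|ω|²)` of the paraboloid at `(ω, |ω|²)`. -/
noncomputable def nor {d : ℕ} (ω : Vec d) : Space d :=
  (√(1 + ‖(-(2 : ℝ)) • ω‖ ^ 2))⁻¹ • WithLp.toLp 2 ((-(2 : ℝ)) • ω, (1 : ℝ))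

/-- The box with centre `a`, side `N²` in the direction `u` and sides `N` in the directions `f j`. -/
def box {d : ℕ} (N : ℝ) (u : Space d) (f : Fin d → Space d) (a : Space d) : Set (Space d) :=
  {y | |inner ℝ u (y - a)| ≤ N ^ 2 / 2 ∧ ∀ j, |inner ℝ (f j) (y - a)| ≤ N / 2}

/-- The caps have centres `ω i` in the closed unit ball, `σ/N`-separated, and `f i` is an orthonormal
frame of the orthogonal complement of the normal at `ω i`. -/
def Caps {d : ℕ} {ι : Type} (σ N : ℝ) (ω : ι → Vec d) (f : ι → Fin d → Space d) : Prop :=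
  (∀ i, ‖ω i‖ ≤ 1) ∧ (∀ i j, i ≠ j → σ / N ≤ ‖ω i - ω j‖) ∧
    ∀ i, Orthonormal ℝ (Fin.cons (nor (ω i)) (f i) : Fin (d + 1) → Space d)

/-- The sum of the indicators of the boxes of the caps with centres `a i`. -/
noncomputable def boxSum {d : ℕ} {ι : Type} [Fintype ι] (N : ℝ) (ω : ι → Vec d)
    (f : ι → Fin d → Space d) (a : ι → Space d) (y : Space d) : ℝ :=
  ∑ i, (box N (nor (ω i)) (f i) (a i)).indicator (fun _ => (1 : ℝ)) y

/-- The centres `a i` form a Sobolev function of the cap: there are weights `g i` with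
`|a i - a j| ≤ N² (g i + g j) |ω i - ω j|`, at most `N^d (G / l)^p` of which are larger than `l`, for
every `l > 0`. -/
def Sobolev {d : ℕ} {ι : Type} [Fintype ι] (p G N : ℝ) (ω : ι → Vec d) (a : ι → Space d) : Prop :=
  ∃ g : ι → ℝ, (∀ i j, ‖a i - a j‖ ≤ N ^ 2 * ((g i + g j) * ‖ω i - ω j‖)) ∧
    ∀ l : ℝ, 0 < l → (N ^ d)⁻¹ * (Nat.card {i // l < g i} : ℝ) ≤ (G / l) ^ p

/-- `κ = p / ((n² + (n-1)²) (p + 2n² - 1))` -/
noncomputable def kappa (n : ℕ) (p : ℝ) : ℝ :=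
  p / (((n : ℝ) ^ 2 + ((n : ℝ) - 1) ^ 2) * (p + 2 * (n : ℝ) ^ 2 - 1))

/-- `X = (1 + G)^(2n²-1) (1 + log N)^(1 - κ)` -/
noncomputable def loss (n : ℕ) (p G N : ℝ) : ℝ :=
  (1 + G) ^ (2 * n ^ 2 - 1) * (1 + Real.log N) ^ (1 - kappa n p)

theorem loss_eq (d : ℕ) (p G N : ℝ) : loss (d + 1) p G N = Pool.Agent.Q184.ST.X d p G N := by
  unfold loss kappa Pool.Agent.Q184.ST.X Pool.Agent.Q184.SF.kap
  have h1 : 2 * (d + 1) ^ 2 - 1 = 2 * d * (d + 2) + 1 := by
    have : 2 * (d + 1) ^ 2 = 2 * d * (d + 2) + 2 := by ring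
    omega
  have h2 : (((d + 1 : ℕ) : ℝ)) ^ 2 + (((d + 1 : ℕ) : ℝ) - 1) ^ 2 = 2 * (d : ℝ) ^ 2 + 2 * d + 1 := by
    push_cast
    ring
  have h3 : p + 2 * (((d + 1 : ℕ) : ℝ)) ^ 2 - 1 = p + (2 * d * (d + 2) + 1) := by
    push_cast
    ring
  rw [h1, h2, h3]

/-- `∫ F log⁺ F ≤ B N^(2n)` for the sum `F` of the indicators of the boxes. -/
def Entropy {d : ℕ} {ι : Type} [Fintype ι] (B N : ℝ) (ω : ι → Vec d) (f : ι → Fin d → Space d)
    (a : ι → Space d) : Prop :=
  ∫⁻ y, ENNReal.ofReal (boxSum N ω f a y * Real.posLog (boxSum N ω f a y)) ≤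
    ENNReal.ofReal (B * N ^ (2 * (d + 1)))

/-- If `∑ |T i ∩ E| ≥ γ N^(2n)`, then `|E| ≥ exp (-B/γ) N^(2n)`, for all sets `E` and all `γ > 0`. -/
def Sets {d : ℕ} {ι : Type} [Fintype ι] (B N : ℝ) (ω : ι → Vec d) (f : ι → Fin d → Space d)
    (a : ι → Space d) : Prop :=
  ∀ (γ : ℝ) (E : Set (Space d)), 0 < γ →
    ENNReal.ofReal (γ * N ^ (2 * (d + 1))) ≤ ∑ i, volume (box N (nor (ω i)) (f i) (a i) ∩ E) →
    ENNReal.ofReal (Real.exp (-(B / γ)) * N ^ (2 * (d + 1))) ≤ volume E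

/-- For every subfamily `J` of at least `γ N^(n-1)` boxes, the union of the boxes of `J` has volume at
least `exp (-B/γ) ∑_J |T i|`, for all `γ > 0`. -/
def VolumeForm {d : ℕ} {ι : Type} [Fintype ι] (B N : ℝ) (ω : ι → Vec d) (f : ι → Fin d → Space d)
    (a : ι → Space d) : Prop :=
  ∀ (γ : ℝ) (J : Finset ι), 0 < γ → γ * N ^ d ≤ J.card →
    ENNReal.ofReal (Real.exp (-(B / γ))) * ∑ i ∈ J, volume (box N (nor (ω i)) (f i) (a i)) ≤
      volume (⋃ i ∈ J, box N (nor (ω i)) (f i) (a i))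

/-- **Entropy, set and volume forms of the Kakeya inequality for Sobolev translates.** -/
theorem result (d : ℕ) (hd : 2 ≤ d) : ∃ C : ℝ → ℝ, (∀ σ, 0 < C σ) ∧
    ∀ (σ N : ℝ), 0 < σ → σ ≤ 1 → 1 ≤ N → ∀ (ι : Type) [Fintype ι] (ω : ι → Vec d)
      (f : ι → Fin d → Space d), Caps σ N ω f → ∀ (a : ι → Space d) (p G : ℝ), 0 < p → 0 ≤ G →
      Sobolev p G N ω a →
      Entropy (C σ * loss (d + 1) p G N) N ω f a ∧
      Sets (C σ * loss (d + 1) p G N) N ω f a ∧
      VolumeForm (C σ * loss (d + 1) p G N) N ω f a := by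
  obtain ⟨C, hC, h⟩ := Pool.Agent.Q184.ST.main (d := d) hd
  refine ⟨C, hC, ?_⟩
  intro σ N hσ hσ1 hN ι _ ω f hcaps a p G hp hG hS
  obtain ⟨hω, hsep, hf⟩ := hcaps
  obtain ⟨g, hg, hw⟩ := hS
  have hm := h σ N hσ hσ1 hN ι ω f hω hsep hf a g p G hp hG hg hw
  have e1 : 2 * (d + 1) = 2 * d + 2 := by ring
  have e2 : ∀ γ : ℝ, C σ * loss (d + 1) p G N / γ = C σ / γ * Pool.Agent.Q184.ST.X d p G N := by
    intro γ
    rw [loss_eq]
    ring
  unfold Entropy Sets VolumeForm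
  simp only [e2]
  rw [loss_eq, e1]
  refine ⟨hm.1, hm.2.1, fun γ J hγ hJ => ?_⟩
  have h3 := hm.2.2 γ J hγ hJ
  have h4 : ∑ i ∈ J, volume (box N (nor (ω i)) (f i) (a i)) =
      ENNReal.ofReal (J.card * N ^ (d + 2)) := by
    have h5 : ∀ i, volume (box N (nor (ω i)) (f i) (a i)) = ENNReal.ofReal (N ^ (d + 2)) :=
      fun i => Pool.Agent.H810R3.Tub.vol_box hN (hf i) (a i)
    rw [Finset.sum_congr rfl fun i _ => h5 i, Finset.sum_const, nsmul_eq_mul,
      ENNReal.ofReal_mul (by positivity), ENNReal.ofReal_natCast]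
  rw [h4, ← ENNReal.ofReal_mul (Real.exp_pos _).le]
  exact h3

end Pool.Agent.Results.MP_ac5134_an.SobolevTranslates
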